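import Mathlib
import Pool.Agent.U924.Wex.Stmt

/-! Weinstein conjecture, contact forms with a local torus symmetry of any rank with arbitrary
monodromy group in `GL(m, ℤ)`, on an arbitrary covering, the action not assumed locally free.
Let `w` be a real, possibly irrational, direction in the Lie algebra of the torus. A nonempty open
set `U` on which the momentum of `w` is larger than on the frontier of `U` contains the lift of a
closed Reeb orbit, and of infinitely many closed Reeb orbits if `w` is irrational and the action is
locally free on `U`, as soon as `U` is compact modulo the deck transformations which fix `w`. For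
a closed manifold and a locally free action the last condition holds when the momentum of `w` is
bounded above on `U` and the monodromy orbit of `w` is locally finite. -/

open scoped Topology ContDiff Manifold
open Pool.Agent.H826R2.WStmt Pool.Agent.TH607.FxStmt Pool.Agent.R775 Pool.Agent.U924.Wex

namespace Pool.Agent.Results.MP_e3ee0c_gt.IsolatedExtrema

universe u v w x

theorem result
    {E : Type u} [NormedAddCommGroup E] [NormedSpace ℝ E] [FiniteDimensional ℝ E]
    -- a manifold `M` with a contact form `α` and its Reeb field `R`
    {M : Type v} [TopologicalSpace M] [ChartedSpace E M] [IsManifold 𝓘(ℝ, E) ∞ M]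
    (α : M → Cov E) (hα : IsContact α) (R : M → E) (hR : IsReeb α R)
    -- a regular covering `q : P → M` with deck group `Γ`
    {P : Type w} [TopologicalSpace P] [ChartedSpace E P] [IsManifold 𝓘(ℝ, E) ∞ P]
    {Γ : Type x} [Group Γ] [MulAction Γ P] (q : P → M) (hq : IsQuotientMap E q Γ)
    -- a smooth action of an `m`-torus on `P` preserving the lifted contact form
    {m : ℕ} (A : TorusSymmetry (pull (E := E) q α) m)
    -- which is normalised by the deck group
    (hA : Normalises Γ A.act)
    -- a real direction `w` and a nonempty open set on which the momentum of `w` is `> c`, while it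
    -- is `≤ c` on the frontier
    (w : Fin m → ℝ) (U : Set P) (hU : IsOpen U) (hne : U.Nonempty) (c : ℝ)
    (hUc : ∀ x ∈ U, c < momentumAt A w x) (hUf : ∀ x ∈ frontier U, momentumAt A w x ≤ c)
    -- the fundamental vector of `w` is not zero where the momentum of `w` vanishes
    (hnz : ∀ x ∈ U, momentumAt A w x = 0 → fundVec A w x ≠ 0)
    -- either `U` is covered by the translates of a compact set under the deck transformations
    -- which fix `w`
    (hcpt : (∃ K : Set P, IsCompact K ∧ ∀ x ∈ U, ∃ γ : Γ, Carries A.act γ w w ∧ γ • x ∈ K) ∨
      -- or `M` is compact and the action is locally free,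
      (CompactSpace M ∧ (∀ (x : P) (κ : Fin m → ℝ), fundVec A κ x = 0 → κ = 0) ∧
        -- the images of `w` under the monodromy form a locally finite set
        (∀ r : ℝ, {κ : Fin m → ℝ | ‖κ‖ ≤ r ∧ ∃ γ : Γ, Carries A.act γ w κ}.Finite) ∧
        -- and the momentum of `w` is bounded above on `U`
        ∃ L : ℝ, ∀ x ∈ U, momentumAt A w x ≤ L)) :
    -- then there is a closed Reeb orbit in the image of `U`
    {C : Set M | (∃ (c : ℝ → M) (T : ℝ), IsPeriodicOrbit R c T ∧ C = Set.range c) ∧
      C ⊆ q '' U}.Nonempty ∧
    -- and there are infinitely many, if the action is locally free on `U` and `w` is not a real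
    -- multiple of an integer vector
    ((∀ x ∈ U, ∀ κ : Fin m → ℝ, fundVec A κ x = 0 → κ = 0) →
      (∀ (k : Fin m → ℤ) (a : ℝ), w ≠ a • (fun i => (k i : ℝ))) →
      {C : Set M | (∃ (c : ℝ → M) (T : ℝ), IsPeriodicOrbit R c T ∧ C = Set.range c) ∧
        C ⊆ q '' U}.Infinite) :=
  isolated_extrema α hα R hR q hq A hA w U hU hne c hUc hUf hnz hcpt

end Pool.Agent.Results.MP_e3ee0c_gt.IsolatedExtrema
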