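import Mathlib
import Pool.Agent.U603.WP.Fin

/-! Weinstein conjecture for Hamiltonians `H (x, y) = F (K x, y)` on products `M × N` of symplectic
manifolds whose compact regular level `Σ` does not project onto `M` (for instance `M` not compact).
The level `Σ` contains a product `{K = h} × {y}` with `{K = h}` compact and regular on which the flow
is the one of `K`, up to a constant factor; contact type descends from `Σ` to `{K = h}`. If `M` is a
surface, then `Σ` carries a periodic orbit (`Σ` need not be of contact type). -/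

open scoped Topology ContDiff Manifold
open Pool.Agent.U603.WP

namespace Pool.Agent.Results.MP_e3ee0c_gt.NoncompactFactor

theorem result
    {E₁ : Type*} [NormedAddCommGroup E₁] [NormedSpace ℝ E₁] [FiniteDimensional ℝ E₁]
    {E₂ : Type*} [NormedAddCommGroup E₂] [NormedSpace ℝ E₂] [FiniteDimensional ℝ E₂]
    -- manifolds `M` (connected) and `N` with nondegenerate two-forms
    {M : Type*} [TopologicalSpace M] [ChartedSpace E₁ M] [IsManifold 𝓘(ℝ, E₁) ∞ M]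
    [T2Space M] [ConnectedSpace M]
    {N : Type*} [TopologicalSpace N] [ChartedSpace E₂ N] [IsManifold 𝓘(ℝ, E₂) ∞ N]
    (σ₁ : M → E₁ →L[ℝ] E₁ →L[ℝ] ℝ) (h₁ : IsNondegForm σ₁)
    (σ₂ : N → E₂ →L[ℝ] E₂ →L[ℝ] ℝ) (h₂ : IsNondegForm σ₂)
    -- the Hamiltonian `H (x, y) = F (K x, y)` and a compact nonempty regular level `H = c`
    (K : M → ℝ) (hK : ContMDiff 𝓘(ℝ, E₁) 𝓘(ℝ, ℝ) ∞ K)
    (F : ℝ × N → ℝ) (hF : ContMDiff (𝓘(ℝ, ℝ).prod 𝓘(ℝ, E₂)) 𝓘(ℝ, ℝ) ∞ F) (c : ℝ)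
    (hS : CompactRegular (𝓘(ℝ, E₁).prod 𝓘(ℝ, E₂)) (fun p : M × N => F (K p.1, p.2)) c)
    -- which does not project onto `M`
    (hproj : NoncompactSpace M ∨ ∃ x₁ : M, ∀ y : N, F (K x₁, y) ≠ c)
    -- the Hamiltonian vector fields `X` of `K` on `M` and `Z` of `H` on `M × N`
    (X : M → E₁) (hX : IsHamiltonian 𝓘(ℝ, E₁) σ₁ K X)
    (Z : M × N → E₁ × E₂) (hZ : IsHamiltonian (𝓘(ℝ, E₁).prod 𝓘(ℝ, E₂)) (prodForm σ₁ σ₂)
      (fun p : M × N => F (K p.1, p.2)) Z) :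
    -- a compact nonempty regular level `K = h` such that `{K = h} × {y}` is contained in `{H = c}`
    ∃ (h a : ℝ) (y : N), a ≠ 0 ∧ CompactRegular 𝓘(ℝ, E₁) K h ∧
      (∀ x, K x = h → F (K x, y) = c) ∧
      -- periodic orbits of `X` on `{K = h}` give periodic orbits of `Z` on `{H = c}`
      (∀ (γ : ℝ → M) (T : ℝ), IsPeriodicOrbitOn 𝓘(ℝ, E₁) X K h γ T →
        IsPeriodicOrbitOn (𝓘(ℝ, E₁).prod 𝓘(ℝ, E₂)) Z (fun p : M × N => F (K p.1, p.2)) c
          (fun t => (γ (t * a), y)) (T / |a|)) ∧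
      -- contact type descends
      (ContactType (𝓘(ℝ, E₁).prod 𝓘(ℝ, E₂)) (prodForm σ₁ σ₂)
        (fun p : M × N => F (K p.1, p.2)) c → ContactType 𝓘(ℝ, E₁) σ₁ K h) ∧
      -- if `M` is a surface, there is a periodic orbit on `{H = c}`
      (Module.finrank ℝ E₁ = 2 → SmoothFieldOn 𝓘(ℝ, E₁) 1 X Set.univ →
        ∃ (γ : ℝ → M × N) (T : ℝ), IsPeriodicOrbitOn (𝓘(ℝ, E₁).prod 𝓘(ℝ, E₂)) Z
          (fun p : M × N => F (K p.1, p.2)) c γ T) :=
  main σ₁ h₁ σ₂ h₂ K hK F hF c hS hproj X hX Z hZ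

end Pool.Agent.Results.MP_e3ee0c_gt.NoncompactFactor
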