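import Mathlib
import Pool.Agent.U603.WQ.Fin

/-! Weinstein conjecture, with multiplicity, for the Hamiltonians
`H x = F (K₁ x₁, …, K_m x_m)` on products of arbitrary connected surfaces `M₁ × … × M_m`, closed or
open: every compact nonempty regular level of `H` carries at least `m` periodic orbits with pairwise
disjoint images. The level need not be of contact type. -/

open scoped Topology ContDiff Manifold
open Pool.Agent.U603.WP Pool.Agent.U603.WQ

namespace Pool.Agent.Results.MP_e3ee0c_gt.ProductsOfSurfaces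

theorem result
    {E : Type*} [NormedAddCommGroup E] [NormedSpace ℝ E] [FiniteDimensional ℝ E]
    (hdim : Module.finrank ℝ E = 2)
    {ι : Type*} [Fintype ι] [DecidableEq ι]
    -- connected surfaces `M j` (without boundary, closed or open) with nondegenerate two-forms
    {M : ι → Type*} [∀ j, TopologicalSpace (M j)] [∀ j, ChartedSpace E (M j)]
    [∀ j, IsManifold 𝓘(ℝ, E) ∞ (M j)] [∀ j, T2Space (M j)] [∀ j, ConnectedSpace (M j)]
    (σ : ∀ j, M j → E →L[ℝ] E →L[ℝ] ℝ) (hσ : ∀ j, IsNondegForm (σ j))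
    -- nonconstant smooth functions `K j` on `M j`, with Hamiltonian vector fields `X j`
    (K : ∀ j, M j → ℝ) (hK : ∀ j, ContMDiff 𝓘(ℝ, E) 𝓘(ℝ, ℝ) ∞ (K j))
    (hnc : ∀ j, ∃ x y, K j x ≠ K j y)
    (X : ∀ j, M j → E) (hX : ∀ j, IsHamiltonian 𝓘(ℝ, E) (σ j) (K j) (X j))
    (hXs : ∀ j, SmoothFieldOn 𝓘(ℝ, E) 1 (X j) Set.univ)
    -- the Hamiltonian `H x = F (K₁ x₁, …, K_m x_m)`, a compact nonempty regular level `H = c`
    (F : (ι → ℝ) → ℝ) (hF : ContDiff ℝ 1 F) (c : ℝ)
    (hS : CompactRegularPi E (fun x : ∀ j, M j => F (fun j => K j (x j))) c)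
    -- and the Hamiltonian vector field `Z` of `H` on the product
    (Z : (∀ j, M j) → ι → E)
    (hZ : IsHamiltonianPi σ (fun x : ∀ j, M j => F (fun j => K j (x j))) Z) :
    -- there are at least `m` periodic orbits of `Z` on `H = c`, with pairwise disjoint images
    ∃ (γ : ι → ℝ → ∀ j, M j) (T : ι → ℝ),
      (∀ k, IsPeriodicOrbitPi Z (fun x : ∀ j, M j => F (fun j => K j (x j))) c (γ k) (T k)) ∧
      ∀ k l, k ≠ l → Disjoint (Set.range (γ k)) (Set.range (γ l)) :=
  main' hdim hσ hF hK hnc hS hX hXs hZ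

end Pool.Agent.Results.MP_e3ee0c_gt.ProductsOfSurfaces
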