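import Mathlib
import Pool.Agent.U234.WI.Main

/-! Weinstein conjecture: closed Reeb orbits for contact forms with a local torus symmetry of any
rank whose monodromy representation in `GL(m, ℤ)` has a small piece: a (virtual) common eigenvector
in `ℂ^m` or, more generally, a real vector fixed by a term of the derived series; an invariant
sublattice of rank at most two, or one with an invariant Lorentzian form. In rank three, for all
nontrivial torus symmetries, locally free or not: closed Reeb orbits unless the monodromy is
strongly irreducible on `ℂ^3` and preserves no nonzero bilinear form up to factors. The monodromy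
group itself may be non-solvable, and the action on the quotient by the piece is arbitrary. -/

open scoped Topology ContDiff Manifold
open Pool.Agent.H826R2.WStmt Pool.Agent.TH607.FxStmt Pool.Agent.U234.WI

namespace Pool.Agent.Results.MP_e3ee0c_gt.ReducibleMonodromy

universe u v w x

theorem result
    {E : Type u} [NormedAddCommGroup E] [NormedSpace ℝ E] [FiniteDimensional ℝ E]
    -- a closed manifold `M` with a contact form `α` and its Reeb field `R`
    {M : Type v} [TopologicalSpace M] [ChartedSpace E M] [IsManifold 𝓘(ℝ, E) ∞ M]
    [T2Space M] [CompactSpace M]
    (α : M → Cov E) (hα : IsContact α) (R : M → E) (hR : IsReeb α R)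
    -- a regular covering `q : P → M` with deck group `Γ`, `P` connected
    {P : Type w} [TopologicalSpace P] [ChartedSpace E P] [IsManifold 𝓘(ℝ, E) ∞ P]
    [T2Space P] [SigmaCompactSpace P] [ConnectedSpace P]
    {Γ : Type x} [Group Γ] [MulAction Γ P] (q : P → M) (hq : IsQuotientMap E q Γ)
    -- a smooth action of an `m`-torus on `P` preserving the lifted contact form
    {m : ℕ} (A : TorusSymmetry (pull (E := E) q α) m)
    -- which is normalised by the deck group
    (hA : Normalises Γ A.act)
    -- and which is not the trivial action
    (hne : ∃ θ y, A.act θ y ≠ y)
    -- the monodromy has a small piece, or the rank is three and the monodromy is small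
    (h : SolvablePiece Γ A.act ∨ SmallSublattice Γ A.act ∨
      (LocallyFree E A.act ∧ (VirtualEigenvector Γ A.act ∨
        VirtuallySmallSublattice Γ A.act ∨ LorentzSublattice Γ A.act)) ∨
      (m = 3 ∧ (VirtuallyReducible Γ A.act ∨ VirtuallyConformal Γ A.act))) :
    -- the Reeb flow of `α` on `M` has a periodic orbit
    ∃ (c : ℝ → M) (T : ℝ), IsPeriodicOrbit R c T :=
  periodic_main hα hR hq A hA hne h

end Pool.Agent.Results.MP_e3ee0c_gt.ReducibleMonodromy
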